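import Pool.Agent.Y142.SS.Top

/-!
# Project SS: the final form
-/

set_option autoImplicit false
set_option linter.style.haveILetI false
set_option linter.unusedSectionVars false

open Matrix Polynomial Filter Topology NumberField IsDedekindDomain
open Pool.Agent.Y142.ZO Pool.Agent.Y142.ZI
open Pool.Agent.Y142.ZS (NiceP restrict0 nice_of_p push_C)
open Pool.Agent.Y142.ZD (DistPow dist_of_nice)

namespace Pool.Agent.Y142.SS

/-- an open subgroup which contains the fixing groups of the fields `L i` contains the fixing group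
of their intersection -/
theorem field_gen {k K : Type} [Field k] [Field K] [Algebra k K] [IsGalois k K] {ι : Type}
    (L : ι → IntermediateField k K) (i₀ : ι) (hfin : FiniteDimensional k (L i₀))
    (A : Subgroup Gal(K/k)) (hA : ∀ i, (L i).fixingSubgroup ≤ A) {g : Gal(K/k)}
    (hg : ∀ x : K, (∀ i, x ∈ L i) → g x = x) : g ∈ A := by
  have hopen : IsOpen (A : Set Gal(K/k)) :=
    Subgroup.isOpen_mono (hA i₀) (IntermediateField.fixingSubgroup_isOpen (L i₀))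
  have hclosed : IsClosed (A : Set Gal(K/k)) := Subgroup.isClosed_of_isOpen _ hopen
  have h1 := InfiniteGalois.fixingSubgroup_fixedField (k := k) (K := K) ⟨A, hclosed⟩
  have h2 : g ∈ (IntermediateField.fixedField A).fixingSubgroup := by
    rw [IntermediateField.mem_fixingSubgroup_iff]
    intro x hx
    apply hg
    intro i
    rw [← InfiniteGalois.fixedField_fixingSubgroup (L i)]
    rw [IntermediateField.mem_fixedField_iff] at hx ⊢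
    exact fun f hf => hx f (hA i hf)
  rw [← show _ = A from h1]
  exact h2

theorem galQQ : @IsGalois ℚ _ QQ _ (AlgebraicClosure.instAlgebra ℚ) :=
  @IsAlgClosure.isGalois ℚ QQ _ _ (AlgebraicClosure.instAlgebra ℚ) _ _

theorem field_mem {m : ℕ} (Q : Fin (m + 1) → ℚ[X]) (hQ : ∀ i, Q i ≠ 0) {g : GK ℚ}
    (hg : ∀ x : QQ, (∀ i, x ∈ Lf (Q i)) → g x = x) : g ∈ Subgroup.closure (⋃ i, Fix (Q i)) := by
  refine @field_gen ℚ QQ _ _ (AlgebraicClosure.instAlgebra ℚ) galQQ (Fin (m + 1))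
    (fun i => Lf (Q i)) 0 (Lf_finite _) _ (fun i t ht => ?_) g hg
  have ht' : t ∈ fixSub (Lf (Q i)) := ht
  exact Subgroup.subset_closure (Set.mem_iUnion.2 ⟨i, fun x hx =>
    mem_fixSub.1 ht' x (mem_Lf (hQ i) hx)⟩)

section
variable {K : Type} [Field K] [NumberField K] {N : ℕ} {S : Set (HeightOneSpectrum (𝓞 K))}
  {P : HeightOneSpectrum (𝓞 K) → ℚ[X]} {q : HeightOneSpectrum (𝓞 K) → ℚ}
  {Γ : Type} [Group Γ] [TopologicalSpace Γ] [IsTopologicalGroup Γ] [CompactSpace Γ]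

theorem nice_of_complexA
    (ρ : ∀ (ℓ : ℕ) [Fact ℓ.Prime], GK K →* Matrix (Fin N) (Fin N) ℚ_[ℓ])
    (hsys : ∀ (ℓ : ℕ) [Fact ℓ.Prime], Sys K N ℓ (ρ ℓ) S P)
    {v : HeightOneSpectrum (𝓞 K)} (hv : v ∉ S) (hsep : (P v).Separable)
    (h2 : ∀ n : ℕ, 0 < n → ∀ x y : ℂ, aeval x (P v) = 0 → aeval y (P v) = 0 → x ^ n = y ^ n → x = y) :
    NiceP S P v := by
  obtain ⟨jc⟩ := nonempty_LC
  refine ⟨hv, (monic_of_sysA ρ hsys hv).1, hsep, ?_⟩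
  intro j x y hj hx hy hxy
  apply jc.injective
  refine h2 j hj _ _ (push_C jc hx) (push_C jc hy) ?_
  rw [← map_pow, hxy, map_pow]

theorem finalSS (hLOC : S_LOC) (hLOGR : S_LOGR) (hKRS : S_KRS) (hCHARA : S_CHARA)
    (hMULTI : S_MULTI) (hFROB : S_FROB) (hINT : S_INT) (hSUBI : S_SUBI) (hSSV : S_SSV)
    (hDENS2 : S_DENS2) (hCONJ : S_CONJ) (hN : 0 < N) (hS : S.Finite) (s : GK K →* Γ)
    (hs : Continuous s)
    (ρ : ∀ (ℓ : ℕ) [Fact ℓ.Prime], Γ →* Matrix (Fin N) (Fin N) ℚ_[ℓ])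
    (J : ∀ (ℓ : ℕ) [Fact ℓ.Prime], Matrix (Fin N) (Fin N) ℚ_[ℓ])
    (hsys : ∀ (ℓ : ℕ) [Fact ℓ.Prime], PolSys K s N ℓ (ρ ℓ) (J ℓ) S P q)
    (hpure : ∀ v ∉ S, ∀ z : ℂ, aeval z (P v) = 0 → ‖z‖ ^ 2 = (q v : ℝ))
    {m : ℕ} (u : Fin (m + 1) → HeightOneSpectrum (𝓞 K))
    (hu : ∀ i, u i ∉ S ∧ (P (u i)).Separable ∧ ∀ n : ℕ, 0 < n → ∀ x y : ℂ,
      aeval x (P (u i)) = 0 → aeval y (P (u i)) = 0 → x ^ n = y ^ n → x = y) :
    ZI.DensityZero {ℓ | ∃ _ : Fact ℓ.Prime,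
      (∀ σ, FrobAt ℓ σ → ∀ κ : QQ →+* ℂ, ∀ x : QQ, (∀ i, x ∈ Lf (P (u i))) →
        κ (σ x) = starRingEnd ℂ (κ x)) ∧ ¬ PotSS ℓ (ρ ℓ)} := by
  obtain ⟨κ, c, hc⟩ := hCONJ
  have hsys' : ∀ (ℓ : ℕ) [Fact ℓ.Prime], Sys K N ℓ ((ρ ℓ).comp s) S P := fun ℓ _ =>
    ⟨(hsys ℓ).1.comp hs, fun v hv hvℓ σ hσ => ((hsys ℓ).2.2.2.2 v hv hvℓ σ hσ).1⟩
  have hu' : ∀ i, NiceP S P (u i) := fun i =>
    nice_of_complexA (fun ℓ _ => (ρ ℓ).comp s) hsys' (hu i).1 (hu i).2.1 (hu i).2.2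
  refine ZI.DensityZero.mono (densitySS hLOC hLOGR hKRS hCHARA hMULTI hFROB hINT hSUBI hSSV hDENS2
    hN hS s hs ρ J hsys hpure u hu' κ c hc) ?_
  rintro ℓ ⟨hp, hσ, hno⟩
  refine ⟨hp, fun σ hσ' => field_mem _ (fun i => (hu' i).2.1.ne_zero) fun x hx => ?_, hno⟩
  rw [AlgEquiv.mul_apply]
  have h1 : σ x = c x := κ.injective (by rw [hσ σ hσ' κ x hx, hc])
  rw [h1, ← AlgEquiv.mul_apply, inv_mul_cancel, AlgEquiv.one_apply]

end

end Pool.Agent.Y142.SS
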