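import Pool.Agent.Y142.SS.Stm
import Pool.Agent.Y142.ZD.Fin

/-!
# Project SS: new places with prescribed local Galois action
-/

set_option autoImplicit false
set_option linter.style.haveILetI false
set_option linter.unusedSectionVars false

open Matrix Polynomial Filter Topology NumberField IsDedekindDomain
open Pool.Agent.Y142.ZO Pool.Agent.Y142.ZI
open Pool.Agent.Y142.ZS (NiceP restrict0 nice_of_p)
open Pool.Agent.Y142.ZD (DistPow dist_of_nice)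

namespace Pool.Agent.Y142.SS

theorem exists_inj {I : Type} [Finite I] (Pr : I → ℕ → Prop)
    (h : ∀ i b, ∃ ℓ, b < ℓ ∧ Pr i ℓ) (b : ℕ) :
    ∃ p : I → ℕ, Function.Injective p ∧ ∀ i, b < p i ∧ Pr i (p i) := by
  classical
  obtain ⟨m, ⟨e⟩⟩ := Finite.exists_equiv_fin I
  choose g hg using h
  let f : ℕ → ℕ → ℕ := fun k b => if hk : k < m then g (e.symm ⟨k, hk⟩) b else b + 1
  have hf : ∀ k b, b < f k b := by
    intro k b
    by_cases hk : k < m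
    · simp only [f, dif_pos hk]
      exact (hg _ _).1
    · simp only [f, dif_neg hk]
      exact Nat.lt_succ_self b
  let q : ℕ → ℕ := fun k => Nat.rec (f 0 b) (fun k x => f (k + 1) x) k
  have hq0 : q 0 = f 0 b := rfl
  have hqs : ∀ k, q (k + 1) = f (k + 1) (q k) := fun k => rfl
  have hmono : StrictMono q := strictMono_nat_of_lt_succ fun k => by
    rw [hqs]
    exact hf _ _
  have hqb : ∀ k, b < q k := fun k => (hf 0 b).trans_le (hmono.monotone (Nat.zero_le k))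
  have hqf : ∀ k, ∃ c, q k = f k c := by
    intro k
    cases k with
    | zero => exact ⟨b, rfl⟩
    | succ k => exact ⟨q k, rfl⟩
  refine ⟨fun i => q (e i), fun i j hij => ?_, fun i => ⟨hqb _, ?_⟩⟩
  · exact e.injective (Fin.ext (hmono.injective hij))
  · obtain ⟨c, hc⟩ := hqf (e i)
    show Pr i (q (e i))
    rw [hc]
    have : f (e i) c = g i c := by
      simp only [f, dif_pos (e i).2, Fin.eta, Equiv.symm_apply_apply]
    rw [this]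
    exact (hg i c).2

/-- a bijection of the roots of two polynomials which commutes with `σ` -/
def RootTrans (Q₁ Q₂ : ℚ[X]) (σ : GK ℚ) : Prop :=
  ∃ ψ : QQ → QQ, (∀ x, aeval x Q₁ = 0 → aeval (ψ x) Q₂ = 0) ∧
    (∀ x y, aeval x Q₁ = 0 → aeval y Q₁ = 0 → ψ x = ψ y → x = y) ∧
    (∀ y, aeval y Q₂ = 0 → ∃ x, aeval x Q₁ = 0 ∧ ψ x = y) ∧
    ∀ x, aeval x Q₁ = 0 → ψ (σ x) = σ (ψ x)

section
variable {K : Type} [Field K] [NumberField K] {N : ℕ} {S : Set (HeightOneSpectrum (𝓞 K))}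
  {P : HeightOneSpectrum (𝓞 K) → ℚ[X]}

/-- `ρ` is a continuous representation with Frobenius polynomials `P v` -/
def Sys (K : Type) [Field K] [NumberField K] (N ℓ : ℕ) [Fact ℓ.Prime]
    (ρ : GK K →* Matrix (Fin N) (Fin N) ℚ_[ℓ])
    (S : Set (HeightOneSpectrum (𝓞 K))) (P : HeightOneSpectrum (𝓞 K) → ℚ[X]) : Prop :=
  Continuous ρ ∧ ∀ v ∉ S, (ℓ : 𝓞 K) ∉ v.asIdeal → ∀ σ : GK K, IsFrobenius v σ →
    (ρ σ⁻¹).charpoly = (P v).map (algebraMap ℚ ℚ_[ℓ])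

theorem monic_of_sysA
    (ρ : ∀ (ℓ : ℕ) [Fact ℓ.Prime], GK K →* Matrix (Fin N) (Fin N) ℚ_[ℓ])
    (hsys : ∀ (ℓ : ℕ) [Fact ℓ.Prime], Sys K N ℓ (ρ ℓ) S P)
    {v : HeightOneSpectrum (𝓞 K)} (hv : v ∉ S) : (P v).Monic ∧ (P v).natDegree = N := by
  obtain ⟨ℓ, hℓ, hp⟩ := Nat.exists_infinite_primes (Ideal.absNorm v.asIdeal + 1)
  haveI : Fact ℓ.Prime := ⟨hp⟩
  have hvℓ := not_mem_of_lt v hp (by omega : Ideal.absNorm v.asIdeal < ℓ)
  obtain ⟨σ, hσ⟩ := Pool.Agent.W401.Frob.exists_frob v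
  have h1 := (hsys ℓ).2 v hv hvℓ σ hσ
  have h2 := charpoly_monic (ρ ℓ σ⁻¹)
  have h3 := charpoly_natDegree_eq_dim (ρ ℓ σ⁻¹)
  rw [h1] at h2 h3
  refine ⟨monic_of_injective (algebraMap ℚ ℚ_[ℓ]).injective h2, ?_⟩
  rw [natDegree_map, Fintype.card_fin] at h3
  exact h3

/-- the key lemma: new places with prescribed Galois action -/
theorem key (hLOC : S_LOC) (hLOGR : S_LOGR) (hKRS : S_KRS) (hCHARA : S_CHARA)
    (hMULTI : S_MULTI) (hFROB : S_FROB) (hN : 0 < N) (hS : S.Finite)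
    (ρ : ∀ (ℓ : ℕ) [Fact ℓ.Prime], GK K →* Matrix (Fin N) (Fin N) ℚ_[ℓ])
    (hsys : ∀ (ℓ : ℕ) [Fact ℓ.Prime], Sys K N ℓ (ρ ℓ) S P)
    (I : Type) [Finite I] [Nonempty I] (u : I → HeightOneSpectrum (𝓞 K))
    (hu : ∀ i, NiceP S P (u i)) (h : I → GK ℚ) (M : IntermediateField ℚ QQ)
    (hM : FiniteDimensional ℚ M) :
    ∃ v : HeightOneSpectrum (𝓞 K), NiceP S P v ∧ ∀ i, ∃ σ : GK ℚ, (∀ x ∈ M, σ x = h i x) ∧
      (∀ x : QQ, aeval x (P (u i)) = 0 → σ x = h i x) ∧ RootTrans (P (u i)) (P v) σ := by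
  classical
  letI : Fintype I := Fintype.ofFinite I
  haveI := hM
  -- the primes
  have hex : ∀ (i : I) (b : ℕ), ∃ ℓ : ℕ, b < ℓ ∧ ∃ _ : Fact ℓ.Prime,
      ∃ (ι : QQ →+* AlgebraicClosure ℚ_[ℓ])
      (τ : AlgebraicClosure ℚ_[ℓ] ≃ₐ[ℚ_[ℓ]] AlgebraicClosure ℚ_[ℓ]) (σ : GK ℚ),
      (∀ x : QQ, τ (ι x) = ι (σ x)) ∧ (∀ x ∈ M, σ x = h i x) ∧
        ∀ x : QQ, aeval x (P (u i)) = 0 → σ x = h i x := by
    intro i b
    haveI := Lf_finite (P (u i))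
    obtain ⟨ℓ, hℓ, hp, ι, τ, σ, -, h1, h2⟩ := hLOC (M ⊔ Lf (P (u i)))
      (IntermediateField.finiteDimensional_sup M (Lf (P (u i)))) (h i) b
    exact ⟨ℓ, hℓ, hp, ι, τ, σ, h1, fun x hx => h2 x ((le_sup_left : M ≤ M ⊔ Lf (P (u i))) hx),
      fun x hx => h2 x ((le_sup_right : Lf (P (u i)) ≤ M ⊔ Lf (P (u i)))
        (mem_Lf (hu i).2.1.ne_zero hx))⟩
  obtain ⟨p, hpinj, hpi⟩ := exists_inj _ hex (Finset.univ.sup fun i => Ideal.absNorm (u i).asIdeal)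
  choose hpb hpp ι τ σ hτ hσM hσP using hpi
  haveI : ∀ i, Fact (p i).Prime := hpp
  have hpu : ∀ i, (p i : 𝓞 K) ∉ (u i).asIdeal := fun i => not_mem_of_lt _ (hpp i).out
    ((Finset.le_sup (f := fun i => Ideal.absNorm (u i).asIdeal) (Finset.mem_univ i)).trans_lt
      (hpb i))
  -- tangent vectors
  have hlog : ∀ i, ∃ T : Matrix (Fin N) (Fin N) ℚ_[p i], IsTangent (p i) (ρ (p i)) T ∧
      T.charpoly.Separable ∧
      RootEquiv (p i) ((P (u i)).map (algebraMap ℚ ℚ_[p i])) T.charpoly := by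
    intro i
    obtain ⟨s, hs⟩ := Pool.Agent.W401.Frob.exists_frob (u i)
    have hchar := (hsys (p i)).2 (u i) (hu i).1 (hpu i) s hs
    have h1 := hLOGR (p i) N (GK K) (ρ (p i)) (hsys (p i)).1 s⁻¹
      (by rw [hchar]; exact (hu i).2.2.1.map) (by rw [hchar]; exact dist_of_nice (hu i) (p i))
    rw [hchar] at h1
    exact h1
  choose T hT hTsep hTeq using hlog
  have hkr : ∀ i, ∃ (ε : ℝ) (k₀ : ℕ), 0 < ε ∧ ∀ (k : ℕ) (Q : ℚ_[p i][X]), k₀ ≤ k → Q.Monic →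
      Q.natDegree = (T i).charpoly.natDegree →
      (∀ j, ‖(resc (p i) k Q - (T i).charpoly).coeff j‖ < ε) →
      Q.Separable ∧ DistPow (p i) Q ∧ RootEquiv (p i) (T i).charpoly Q :=
    fun i => hKRS (p i) (T i).charpoly (charpoly_monic _) (hTsep i)
  choose ε k₀ hε hkr using hkr
  have hch : ∀ i, ∃ (δ : ℝ) (k₁ : ℕ), 0 < δ ∧
      ∀ (k : ℕ) (g : Matrix (Fin N) (Fin N) ℚ_[p i]), k₁ ≤ k →
      (∀ a b, ‖((((p i : ℚ_[p i]) ^ k)⁻¹ • (g - 1)) - T i) a b‖ < δ) →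
      ∀ j, ‖(resc (p i) k g.charpoly - (T i).charpoly).coeff j‖ < ε i :=
    fun i => hCHARA (p i) N hN (T i) (ε i) (hε i)
  choose δ k₁ hδ hch using hch
  obtain ⟨d, hd, hdδ⟩ : ∃ d : ℝ, 0 < d ∧ ∀ i, d ≤ δ i := by
    refine ⟨Finset.univ.inf' Finset.univ_nonempty δ, ?_,
      fun i => Finset.inf'_le _ (Finset.mem_univ i)⟩
    rw [Finset.lt_inf'_iff]
    exact fun i _ => hδ i
  set k₂ : ℕ := Finset.univ.sup k₀ + Finset.univ.sup k₁ with hk₂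
  have hk₂0 : ∀ i, k₀ i ≤ k₂ := fun i => by
    have := Finset.le_sup (f := k₀) (Finset.mem_univ i)
    omega
  have hk₂1 : ∀ i, k₁ i ≤ k₂ := fun i => by
    have := Finset.le_sup (f := k₁) (Finset.mem_univ i)
    omega
  obtain ⟨O, hO, hOne, hOσ⟩ := hMULTI (GK K) N I p hpinj (fun i => ρ (p i))
    (fun i => (hsys (p i)).1) T hT d k₂ hd
  have hfin : (S ∪ ⋃ i, {v : HeightOneSpectrum (𝓞 K) | (p i : 𝓞 K) ∈ v.asIdeal}).Finite :=
    hS.union (Set.finite_iUnion fun i => finite_above (p i) (hpp i).out)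
  obtain ⟨v, hv, s, hs, hsO⟩ := hFROB K O hO hOne _ hfin
  rw [Set.mem_union, not_or, Set.mem_iUnion, not_exists] at hv
  obtain ⟨hPm, hPd⟩ := monic_of_sysA ρ hsys hv.1
  have hmain : ∀ i, ((P v).map (algebraMap ℚ ℚ_[p i])).Separable ∧
      DistPow (p i) ((P v).map (algebraMap ℚ ℚ_[p i])) ∧
      RootEquiv (p i) (T i).charpoly ((P v).map (algebraMap ℚ ℚ_[p i])) := by
    intro i
    obtain ⟨k, hk, hclose⟩ := hOσ s⁻¹ hsO i
    have hP := (hsys (p i)).2 v hv.1 (hv.2 i) s hs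
    have h1 := hch i k (ρ (p i) s⁻¹) ((hk₂1 i).trans hk)
      (fun a b => (hclose a b).trans_le (hdδ i))
    rw [hP] at h1
    refine hkr i k _ ((hk₂0 i).trans hk) (hPm.map _) ?_ h1
    rw [natDegree_map, hPd, charpoly_natDegree_eq_dim, Fintype.card_fin]
  obtain ⟨i₀⟩ := ‹Nonempty I›
  have hnice : NiceP S P v := nice_of_p hv.1 hPm (p i₀) (hmain i₀).1 (hmain i₀).2.1
  refine ⟨v, hnice, fun i => ⟨σ i, hσM i, hσP i, ?_⟩⟩
  obtain ⟨φ₁, a1, a2, a3, a4⟩ := hTeq i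
  obtain ⟨φ₂, b1, b2, b3, b4⟩ := (hmain i).2.2
  have hlift : ∀ x : QQ, aeval x (P (u i)) = 0 → ∃ y : QQ, aeval y (P v) = 0 ∧
      ι i y = φ₂ (φ₁ (ι i x)) := fun x hx =>
    lift_root (p i) (ι i) hPm.ne_zero (b1 _ (a1 _ (push_root (p i) (ι i) hx)))
  choose! ψ hψ1 hψ2 using hlift
  refine ⟨ψ, hψ1, ?_, ?_, ?_⟩
  · intro x y hx hy hxy
    apply (ι i).injective
    apply a2 _ _ (push_root (p i) (ι i) hx) (push_root (p i) (ι i) hy)
    apply b2 _ _ (a1 _ (push_root (p i) (ι i) hx)) (a1 _ (push_root (p i) (ι i) hy))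
    rw [← hψ2 x hx, ← hψ2 y hy, hxy]
  · intro y hy
    obtain ⟨r, hr, hry⟩ := b3 _ (push_root (p i) (ι i) hy)
    obtain ⟨z, hz, hzr⟩ := a3 _ hr
    obtain ⟨x, hx, rfl⟩ := lift_root (p i) (ι i) (hu i).2.1.ne_zero hz
    refine ⟨x, hx, ?_⟩
    apply (ι i).injective
    rw [hψ2 x hx, hzr, hry]
  · intro x hx
    apply (ι i).injective
    rw [hψ2 _ (aeval_aut _ hx), ← hτ, ← hτ, hψ2 x hx,
      a4 (τ i) _ (push_root (p i) (ι i) hx), b4 (τ i) _ (a1 _ (push_root (p i) (ι i) hx))]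

end

end Pool.Agent.Y142.SS
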