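import Pool.Agent.Y142.ZD.Stm

set_option autoImplicit false

/-!
Project Y142-SS (owner helper142): semisimplicity of `ℓ`-adic representations at 100 percent of the
primes `ℓ`, from finitely many Frobenius polynomials. Statements of the self-contained sub-tasks.
-/

open Matrix Polynomial Filter Topology NumberField IsDedekindDomain
open Pool.Agent.Y142.ZO Pool.Agent.Y142.ZI
open Pool.Agent.Y142.ZD (DistPow)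

namespace Pool.Agent.Y142.SS

/-- task LF: a Frobenius element of `ℚ_ℓ` -/
def S_LF : Prop := ∀ (ℓ : ℕ) [Fact ℓ.Prime],
  ∃ τ : AlgebraicClosure ℚ_[ℓ] ≃ₐ[ℚ_[ℓ]] AlgebraicClosure ℚ_[ℓ],
    ∀ x : AlgebraicClosure ℚ_[ℓ], ‖x‖ ≤ 1 → ‖τ x - x ^ ℓ‖ < 1

/-- task CF: global and local Frobenius elements -/
def S_CF : Prop := ∀ Q : ℚ[X], Q.Monic → Q.Separable →
  ∃ b : ℕ, ∀ ℓ : ℕ, b < ℓ → ∀ _ : Fact ℓ.Prime, ∀ σ : GK ℚ, FrobAt ℓ σ →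
    ∃ (ι : QQ →+* AlgebraicClosure ℚ_[ℓ])
      (τ : AlgebraicClosure ℚ_[ℓ] ≃ₐ[ℚ_[ℓ]] AlgebraicClosure ℚ_[ℓ]) (σ' : GK ℚ),
      FrobAt ℓ σ' ∧ (∀ x : QQ, τ (ι x) = ι (σ' x)) ∧ ∀ x : QQ, aeval x Q = 0 → σ' x = σ x

/-- task LOC: Chebotarev's theorem with local Frobenius elements -/
def S_LOC : Prop := ∀ M : IntermediateField ℚ QQ, FiniteDimensional ℚ M → ∀ (h : GK ℚ) (b : ℕ),
  ∃ ℓ : ℕ, b < ℓ ∧ ∃ _ : Fact ℓ.Prime, ∃ (ι : QQ →+* AlgebraicClosure ℚ_[ℓ])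
    (τ : AlgebraicClosure ℚ_[ℓ] ≃ₐ[ℚ_[ℓ]] AlgebraicClosure ℚ_[ℓ]) (σ : GK ℚ),
    FrobAt ℓ σ ∧ (∀ x : QQ, τ (ι x) = ι (σ x)) ∧ ∀ x ∈ M, σ x = h x

/-- task SUBI: factors over `ℚ_ℓ` and stable sets of roots -/
def S_SUBI : Prop := ∀ Q : ℚ[X], Q.Monic → Q.Separable →
  ∃ b : ℕ, ∀ ℓ : ℕ, b < ℓ → ∀ _ : Fact ℓ.Prime, ∀ σ : GK ℚ, FrobAt ℓ σ →
    ∃ ι : QQ →+* AlgebraicClosure ℚ_[ℓ], ∀ R : ℚ_[ℓ][X], R ∣ Q.map (algebraMap ℚ ℚ_[ℓ]) →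
      ∀ x : QQ, aeval x Q = 0 → aeval (ι x) R = 0 → aeval (ι (σ x)) R = 0

/-- an equivariant bijection from the roots of `R` to the roots of `Q` -/
def RootEquiv (ℓ : ℕ) [Fact ℓ.Prime] (R Q : ℚ_[ℓ][X]) : Prop :=
  ∃ φ : AlgebraicClosure ℚ_[ℓ] → AlgebraicClosure ℚ_[ℓ],
    (∀ r, aeval r R = 0 → aeval (φ r) Q = 0) ∧
    (∀ r s, aeval r R = 0 → aeval s R = 0 → φ r = φ s → r = s) ∧
    (∀ x, aeval x Q = 0 → ∃ r, aeval r R = 0 ∧ φ r = x) ∧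
    ∀ (τ : AlgebraicClosure ℚ_[ℓ] ≃ₐ[ℚ_[ℓ]] AlgebraicClosure ℚ_[ℓ]) (r : AlgebraicClosure ℚ_[ℓ]),
      aeval r R = 0 → φ (τ r) = τ (φ r)

/-- task LOGR: the logarithm of a power of a regular element -/
def S_LOGR : Prop := ∀ (ℓ : ℕ) [Fact ℓ.Prime] (N : ℕ) (G : Type) [Group G]
  [TopologicalSpace G] [IsTopologicalGroup G] [CompactSpace G]
  (ρ : G →* Matrix (Fin N) (Fin N) ℚ_[ℓ]), Continuous ρ →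
  ∀ σ : G, (ρ σ).charpoly.Separable → DistPow ℓ (ρ σ).charpoly →
  ∃ T : Matrix (Fin N) (Fin N) ℚ_[ℓ], IsTangent ℓ ρ T ∧ T.charpoly.Separable ∧
    RootEquiv ℓ (ρ σ).charpoly T.charpoly

/-- task KRS (Krasner) -/
def S_KRS : Prop := ∀ (ℓ : ℕ) [Fact ℓ.Prime], ∀ R₀ : ℚ_[ℓ][X], R₀.Monic → R₀.Separable →
  ∃ (ε : ℝ) (k₀ : ℕ), 0 < ε ∧ ∀ (k : ℕ) (Q : ℚ_[ℓ][X]), k₀ ≤ k → Q.Monic →
    Q.natDegree = R₀.natDegree → (∀ j, ‖(resc ℓ k Q - R₀).coeff j‖ < ε) →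
    Q.Separable ∧ DistPow ℓ Q ∧ RootEquiv ℓ R₀ Q

/-- task CHARA: the characteristic polynomial of a matrix near `1` -/
def S_CHARA : Prop := ∀ (ℓ : ℕ) [Fact ℓ.Prime] (N : ℕ), 0 < N →
  ∀ T : Matrix (Fin N) (Fin N) ℚ_[ℓ], ∀ ε : ℝ, 0 < ε → ∃ (δ : ℝ) (k₀ : ℕ), 0 < δ ∧
  ∀ (k : ℕ) (g : Matrix (Fin N) (Fin N) ℚ_[ℓ]), k₀ ≤ k →
    (∀ a b, ‖((((ℓ : ℚ_[ℓ]) ^ k)⁻¹ • (g - 1)) - T) a b‖ < δ) →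
    ∀ j, ‖(resc ℓ k g.charpoly - T.charpoly).coeff j‖ < ε

/-- task SSV: subspaces without isotropic part -/
def S_SSV : Prop := ∀ (ℓ : ℕ) [Fact ℓ.Prime] (N : ℕ) (G : Type) [Group G]
  [TopologicalSpace G] [IsTopologicalGroup G] [CompactSpace G]
  (ρ : G →* Matrix (Fin N) (Fin N) ℚ_[ℓ]), Continuous ρ →
  ∀ J : Matrix (Fin N) (Fin N) ℚ_[ℓ], (Jᵀ = J ∨ Jᵀ = -J) → J.det ≠ 0 →
  (∀ g, ∃ c : ℚ_[ℓ], (ρ g)ᵀ * J * ρ g = c • J) →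
  ∀ (σ : G) (q : ℚ_[ℓ]), (ρ σ)ᵀ * J * ρ σ = q • J → (ρ σ).charpoly.Separable →
    DistPow ℓ (ρ σ).charpoly →
    (∀ R : ℚ_[ℓ][X], R ∣ (ρ σ).charpoly → ∀ y : AlgebraicClosure ℚ_[ℓ], aeval y R = 0 →
      aeval (algebraMap ℚ_[ℓ] (AlgebraicClosure ℚ_[ℓ]) q / y) R = 0) →
  ∀ (U : Subgroup G) (W : Submodule ℚ_[ℓ] (Fin N → ℚ_[ℓ])), IsOpen (U : Set G) →
    (∀ σ ∈ U, ∀ w ∈ W, ρ σ *ᵥ w ∈ W) →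
    ∃ W' : Submodule ℚ_[ℓ] (Fin N → ℚ_[ℓ]), (∀ σ ∈ U, ∀ w ∈ W', ρ σ *ᵥ w ∈ W') ∧ IsCompl W W'

/-- task CONJ: complex conjugation -/
def S_CONJ : Prop := ∃ (κ : QQ →+* ℂ) (c : GK ℚ), ∀ x : QQ, κ (c x) = starRingEnd ℂ (κ x)

end Pool.Agent.Y142.SS
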