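import Pool.Agent.Y142.SS.Key

/-!
# Project SS: semisimplicity at a set of primes of density one
-/

set_option autoImplicit false
set_option linter.style.haveILetI false
set_option linter.unusedSectionVars false

open Matrix Polynomial Filter Topology NumberField IsDedekindDomain
open Pool.Agent.Y142.ZO Pool.Agent.Y142.ZI
open Pool.Agent.Y142.ZS (NiceP restrict0 nice_of_p push_C)
open Pool.Agent.Y142.ZD (DistPow dist_of_nice)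

namespace Pool.Agent.Y142.SS

/-- a splitting field in `QQ` is stable -/
theorem stable_Lf (Q : ℚ[X]) (g : GK ℚ) {x : QQ} (hx : x ∈ Lf Q) : g x ∈ Lf Q := by
  haveI := normalQQ
  have h2 := (IntermediateField.normal_iff_forall_map_eq' (F := ℚ) (L := QQ) (K := Lf Q)).1
    (Lf_normal Q) (conv g)
  rw [← h2]
  exact ⟨x, hx, rfl⟩

theorem normal_sup' (E E' : IntermediateField ℚ QQ) (h : Normal ℚ E) (h' : Normal ℚ E') :
    Normal ℚ (E ⊔ E' : IntermediateField ℚ QQ) := by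
  haveI := normalQQ
  refine (IntermediateField.normal_iff_forall_map_le' (F := ℚ) (L := QQ) (K := E ⊔ E')).2 ?_
  intro g
  rw [IntermediateField.map_sup]
  exact sup_le (((IntermediateField.normal_iff_forall_map_le' (F := ℚ) (L := QQ) (K := E)).1 h
    g).trans le_sup_left) (((IntermediateField.normal_iff_forall_map_le' (F := ℚ) (L := QQ)
    (K := E')).1 h' g).trans le_sup_right)

/-- automorphisms fixing the roots of `Q` -/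
def Fix (Q : ℚ[X]) : Set (GK ℚ) := {g | ∀ x : QQ, aeval x Q = 0 → g x = x}

theorem fix_conj {Q : ℚ[X]} {g : GK ℚ} (hg : g ∈ Fix Q) (h : GK ℚ) : h * g * h⁻¹ ∈ Fix Q := by
  intro x hx
  rw [AlgEquiv.mul_apply, AlgEquiv.mul_apply, hg _ (aeval_aut _ hx), ← AlgEquiv.mul_apply,
    mul_inv_cancel, AlgEquiv.one_apply]

theorem fix_of_trans {Q₁ Q₂ : ℚ[X]} {σ : GK ℚ} (h : RootTrans Q₁ Q₂ σ)
    (hσ : ∀ x : QQ, aeval x Q₁ = 0 → σ x = x) : σ ∈ Fix Q₂ := by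
  obtain ⟨ψ, -, -, h3, h4⟩ := h
  intro y hy
  obtain ⟨x, hx, rfl⟩ := h3 y hy
  rw [← h4 x hx, hσ x hx]

/-- the classes for which every stable set of roots is stable under `x ↦ q / x` -/
def Sd (Q : ℚ[X]) (q : ℚ) : Set (GK ℚ) :=
  {g | ∀ T : Set QQ, (∀ x ∈ T, aeval x Q = 0) → (∀ x ∈ T, g x ∈ T) → ∀ x ∈ T, (q : QQ) / x ∈ T}

theorem sd_conj {Q : ℚ[X]} {q : ℚ} {g : GK ℚ} (hg : g ∈ Sd Q q) (h : GK ℚ) :
    h * g * h⁻¹ ∈ Sd Q q := by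
  intro T hT hTs x hx
  obtain ⟨y, hy, hyx⟩ := hg ((fun x : QQ => h⁻¹ x) '' T) (by
    rintro _ ⟨y, hy, rfl⟩
    exact aeval_aut _ (hT y hy)) (by
    rintro _ ⟨y, hy, rfl⟩
    refine ⟨(h * g * h⁻¹) y, hTs y hy, ?_⟩
    show h⁻¹ ((h * g * h⁻¹) y) = g (h⁻¹ y)
    rw [← AlgEquiv.mul_apply, ← AlgEquiv.mul_apply]
    congr 1
    group) (h⁻¹ x) ⟨x, hx, rfl⟩
  have h1 : y = (q : QQ) / x := by
    have h2 := congrArg h hyx
    have h3 : h (h⁻¹ y) = y := by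
      rw [← AlgEquiv.mul_apply, mul_inv_cancel, AlgEquiv.one_apply]
    have h4 : h ((q : QQ) / h⁻¹ x) = (q : QQ) / x := by
      rw [map_div₀, map_ratCast, ← AlgEquiv.mul_apply, mul_inv_cancel, AlgEquiv.one_apply]
    rw [← h3, ← h4]
    exact h2
  rw [← h1]
  exact hy

theorem sd_mul {Q : ℚ[X]} {q : ℚ} {g : GK ℚ} (hg : g ∈ Sd Q q) {u : GK ℚ}
    (hu : u ∈ Fix Q) : g * u ∈ Sd Q q := by
  intro T hT hTs
  refine hg T hT fun x hx => ?_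
  have h1 := hTs x hx
  rwa [AlgEquiv.mul_apply, hu x (hT x hx)] at h1

/-- complex conjugation on the roots of a pure polynomial -/
theorem conj_root {κ : QQ →+* ℂ} {c : GK ℚ} (hc : ∀ x : QQ, κ (c x) = starRingEnd ℂ (κ x))
    {Q : ℚ[X]} {q : ℚ} (hpure : ∀ z : ℂ, aeval z Q = 0 → ‖z‖ ^ 2 = (q : ℝ)) {x : QQ}
    (hx : aeval x Q = 0) (hx0 : x ≠ 0) : c x = (q : QQ) / x := by
  apply κ.injective
  have h0 : κ x ≠ 0 := (_root_.map_ne_zero κ).2 hx0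
  rw [hc, map_div₀, map_ratCast, eq_div_iff h0, mul_comm, Complex.mul_conj, Complex.normSq_eq_norm_sq,
    hpure _ (push_C κ hx)]
  simp

section
variable {K : Type} [Field K] [NumberField K] {N : ℕ} {S : Set (HeightOneSpectrum (𝓞 K))}
  {P : HeightOneSpectrum (𝓞 K) → ℚ[X]} {q : HeightOneSpectrum (𝓞 K) → ℚ}
  {Γ : Type} [Group Γ] [TopologicalSpace Γ] [IsTopologicalGroup Γ] [CompactSpace Γ]

/-- a polarized system -/
def PolSys (K : Type) [Field K] [NumberField K] {Γ : Type} [Group Γ] [TopologicalSpace Γ]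
    (s : GK K →* Γ) (N ℓ : ℕ) [Fact ℓ.Prime]
    (ρ : Γ →* Matrix (Fin N) (Fin N) ℚ_[ℓ]) (J : Matrix (Fin N) (Fin N) ℚ_[ℓ])
    (S : Set (HeightOneSpectrum (𝓞 K))) (P : HeightOneSpectrum (𝓞 K) → ℚ[X])
    (q : HeightOneSpectrum (𝓞 K) → ℚ) : Prop :=
  Continuous ρ ∧ (Jᵀ = J ∨ Jᵀ = -J) ∧ J.det ≠ 0 ∧
  (∀ g, ∃ c : ℚ_[ℓ], (ρ g)ᵀ * J * ρ g = c • J) ∧
  ∀ v ∉ S, (ℓ : 𝓞 K) ∉ v.asIdeal → ∀ σ : GK K, IsFrobenius v σ →
    (ρ (s σ⁻¹)).charpoly = (P v).map (algebraMap ℚ ℚ_[ℓ]) ∧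
      (ρ (s σ⁻¹))ᵀ * J * ρ (s σ⁻¹) = (q v : ℚ_[ℓ]) • J

/-- semisimplicity for all open subgroups -/
def PotSS (ℓ : ℕ) [Fact ℓ.Prime] (ρ : Γ →* Matrix (Fin N) (Fin N) ℚ_[ℓ]) : Prop :=
  ∀ (U : Subgroup Γ) (W : Submodule ℚ_[ℓ] (Fin N → ℚ_[ℓ])), IsOpen (U : Set Γ) →
    (∀ σ ∈ U, ∀ w ∈ W, ρ σ *ᵥ w ∈ W) →
    ∃ W' : Submodule ℚ_[ℓ] (Fin N → ℚ_[ℓ]), (∀ σ ∈ U, ∀ w ∈ W', ρ σ *ᵥ w ∈ W') ∧ IsCompl W W'

theorem pot_of (hSSV : S_SSV) {v : HeightOneSpectrum (𝓞 K)} (hv : NiceP S P v) (ℓ : ℕ)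
    [hℓ : Fact ℓ.Prime] (hvℓ : (ℓ : 𝓞 K) ∉ v.asIdeal) (s : GK K →* Γ)
    (ρ : Γ →* Matrix (Fin N) (Fin N) ℚ_[ℓ]) (J : Matrix (Fin N) (Fin N) ℚ_[ℓ])
    (hsys : PolSys K s N ℓ ρ J S P q) {g : GK ℚ} (hg : g ∈ Sd (P v) (q v))
    (hsub : ∃ ι : QQ →+* AlgebraicClosure ℚ_[ℓ], ∀ R : ℚ_[ℓ][X],
      R ∣ (P v).map (algebraMap ℚ ℚ_[ℓ]) →
      ∀ x : QQ, aeval x (P v) = 0 → aeval (ι x) R = 0 → aeval (ι (g x)) R = 0) :
    PotSS ℓ ρ := by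
  obtain ⟨hcont, hJ, hdet, hsim, hfrob⟩ := hsys
  obtain ⟨σ, hσ⟩ := Pool.Agent.W401.Frob.exists_frob v
  obtain ⟨hchar, hmult⟩ := hfrob v hv.1 hvℓ σ hσ
  obtain ⟨ι, hι⟩ := hsub
  intro U W hU hW
  refine hSSV ℓ N Γ ρ hcont J hJ hdet hsim (s σ⁻¹) (q v : ℚ_[ℓ]) hmult
    (by rw [hchar]; exact hv.2.2.1.map) (by rw [hchar]; exact dist_of_nice hv ℓ) ?_ U W hU hW
  intro R hR y hy
  rw [hchar] at hR
  have hy' : aeval y ((P v).map (algebraMap ℚ ℚ_[ℓ])) = 0 := by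
    obtain ⟨R', hR'⟩ := hR
    rw [hR', map_mul, hy, zero_mul]
  obtain ⟨x, hx, rfl⟩ := lift_root ℓ ι hv.2.1.ne_zero hy'
  have h1 := hg {x : QQ | aeval x (P v) = 0 ∧ aeval (ι x) R = 0} (fun x hx => hx.1)
    (fun x hx => ⟨aeval_aut _ hx.1, hι R hR x hx.1 hx.2⟩) x ⟨hx, hy⟩
  have h2 := h1.2
  rw [map_div₀, map_ratCast] at h2
  rw [map_ratCast]
  exact h2

/-- new places whose splitting fields are as independent as possible -/
theorem key2 (hLOC : S_LOC) (hLOGR : S_LOGR) (hKRS : S_KRS) (hCHARA : S_CHARA)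
    (hMULTI : S_MULTI) (hFROB : S_FROB) (hINT : S_INT) (hN : 0 < N) (hS : S.Finite)
    (ρ : ∀ (ℓ : ℕ) [Fact ℓ.Prime], GK K →* Matrix (Fin N) (Fin N) ℚ_[ℓ])
    (hsys : ∀ (ℓ : ℕ) [Fact ℓ.Prime], Sys K N ℓ (ρ ℓ) S P)
    {m : ℕ} (u : Fin (m + 1) → HeightOneSpectrum (𝓞 K)) (hu : ∀ i, NiceP S P (u i))
    (M : IntermediateField ℚ QQ) (hM : FiniteDimensional ℚ M) :
    ∃ v : HeightOneSpectrum (𝓞 K), NiceP S P v ∧
      ∀ a ∈ Subgroup.closure (⋃ i, Fix (P (u i))), ∃ s ∈ Fix (P v), ∀ x ∈ M, s x = a x := by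
  classical
  obtain ⟨f, hf, hMf, -⟩ := hINT M hM
  set Q : ℚ[X] := f.map (Int.castRingHom ℚ) with hQ
  have hQ0 : Q ≠ 0 := (hf.map _).ne_zero
  have hMQ : M ≤ Lf Q := by
    refine hMf.trans ?_
    rw [IntermediateField.adjoin_le_iff]
    intro x hx
    refine mem_Lf hQ0 ?_
    rw [hQ, show (Int.castRingHom ℚ) = algebraMap ℤ ℚ from rfl, aeval_map_algebraMap]
    exact hx
  have hfin : FiniteDimensional ℚ (Lf Q) := Lf_finite Q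
  haveI : Finite (GK ℚ ⧸ fixSub (Lf Q)) :=
    Subgroup.quotient_finite_of_isOpen _ (fixSub_open _ hfin)
  let I : Type := {c : GK ℚ ⧸ fixSub (Lf Q) // ∃ i, ∃ a ∈ Fix (P (u i)),
    (QuotientGroup.mk a : GK ℚ ⧸ fixSub (Lf Q)) = c}
  haveI : Finite I := Subtype.finite
  haveI : Nonempty I := ⟨⟨QuotientGroup.mk 1, 0, 1, fun x _ => rfl, rfl⟩⟩
  have hI : ∀ c : I, ∃ i, ∃ a ∈ Fix (P (u i)), (QuotientGroup.mk a : GK ℚ ⧸ fixSub (Lf Q)) = c.1 :=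
    fun c => c.2
  choose idx el hel1 hel2 using hI
  obtain ⟨v, hv, hσ⟩ := key hLOC hLOGR hKRS hCHARA hMULTI hFROB hN hS ρ hsys I (fun c => u (idx c))
    (fun c => hu _) el (Lf Q) hfin
  refine ⟨v, hv, fun a ha => ?_⟩
  have hgood : ∃ s ∈ Fix (P v), ∀ x ∈ Lf Q, s x = a x := by
    refine Subgroup.closure_induction (p := fun a _ => ∃ s ∈ Fix (P v), ∀ x ∈ Lf Q, s x = a x)
      ?_ ?_ ?_ ?_ ha
    · intro a ha
      obtain ⟨i, hi⟩ := Set.mem_iUnion.1 ha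
      let c : I := ⟨QuotientGroup.mk a, i, a, hi, rfl⟩
      obtain ⟨σ, h1, h2, h3⟩ := hσ c
      refine ⟨σ, fix_of_trans h3 fun x hx => (h2 x hx).trans (hel1 c x hx), fun x hx => ?_⟩
      rw [h1 x hx]
      have h4 : (QuotientGroup.mk (el c) : GK ℚ ⧸ fixSub (Lf Q)) = QuotientGroup.mk a := hel2 c
      rw [eq_comm, QuotientGroup.eq] at h4
      have h5 := mem_fixSub.1 h4 x hx
      have h6 := congrArg a h5
      rw [← AlgEquiv.mul_apply, mul_inv_cancel_left] at h6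
      exact h6
    · exact ⟨1, fun x _ => rfl, fun x _ => rfl⟩
    · rintro a b - - ⟨s, hs, hsa⟩ ⟨t, ht, htb⟩
      refine ⟨s * t, fun x hx => ?_, fun x hx => ?_⟩
      · rw [AlgEquiv.mul_apply, ht x hx, hs x hx]
      · rw [AlgEquiv.mul_apply, AlgEquiv.mul_apply, htb x hx, hsa _ (stable_Lf Q b hx)]
    · rintro a - ⟨s, hs, hsa⟩
      refine ⟨s⁻¹, fun x hx => ?_, fun x hx => ?_⟩
      · have h1 := congrArg (s⁻¹ : GK ℚ) (hs x hx)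
        rw [← AlgEquiv.mul_apply, inv_mul_cancel, AlgEquiv.one_apply] at h1
        exact h1.symm
      · have h1 := hsa (a⁻¹ x) (stable_Lf Q a⁻¹ hx)
        rw [← AlgEquiv.mul_apply a, mul_inv_cancel, AlgEquiv.one_apply] at h1
        have h2 := congrArg (s⁻¹ : GK ℚ) h1
        rw [← AlgEquiv.mul_apply, inv_mul_cancel, AlgEquiv.one_apply] at h2
        exact h2.symm
  obtain ⟨s, hs, h⟩ := hgood
  exact ⟨s, hs, fun x hx => h x (hMQ hx)⟩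

/-- the main theorem -/
theorem densitySS (hLOC : S_LOC) (hLOGR : S_LOGR) (hKRS : S_KRS) (hCHARA : S_CHARA)
    (hMULTI : S_MULTI) (hFROB : S_FROB) (hINT : S_INT) (hSUBI : S_SUBI) (hSSV : S_SSV)
    (hDENS2 : S_DENS2) (hN : 0 < N) (hS : S.Finite) (s : GK K →* Γ) (hs : Continuous s)
    (ρ : ∀ (ℓ : ℕ) [Fact ℓ.Prime], Γ →* Matrix (Fin N) (Fin N) ℚ_[ℓ])
    (J : ∀ (ℓ : ℕ) [Fact ℓ.Prime], Matrix (Fin N) (Fin N) ℚ_[ℓ])
    (hsys : ∀ (ℓ : ℕ) [Fact ℓ.Prime], PolSys K s N ℓ (ρ ℓ) (J ℓ) S P q)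
    (hpure : ∀ v ∉ S, ∀ z : ℂ, aeval z (P v) = 0 → ‖z‖ ^ 2 = (q v : ℝ))
    {m : ℕ} (u : Fin (m + 1) → HeightOneSpectrum (𝓞 K)) (hu : ∀ i, NiceP S P (u i))
    (κ : QQ →+* ℂ) (c : GK ℚ) (hc : ∀ x : QQ, κ (c x) = starRingEnd ℂ (κ x)) :
    ZI.DensityZero {ℓ | ∃ _ : Fact ℓ.Prime,
      (∀ σ, FrobAt ℓ σ → c⁻¹ * σ ∈ Subgroup.closure (⋃ i, Fix (P (u i)))) ∧ ¬ PotSS ℓ (ρ ℓ)} := by
  classical
  set A : Subgroup (GK ℚ) := Subgroup.closure (⋃ i, Fix (P (u i))) with hA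
  have hsys' : ∀ (ℓ : ℕ) [Fact ℓ.Prime], Sys K N ℓ ((ρ ℓ).comp s) S P := fun ℓ _ =>
    ⟨(hsys ℓ).1.comp hs, fun v hv hvℓ σ hσ => ((hsys ℓ).2.2.2.2 v hv hvℓ σ hσ).1⟩
  have hnz : ∀ v, v ∉ S → ∀ x : QQ, aeval x (P v) = 0 → x ≠ 0 := by
    rintro v hv x hx rfl
    obtain ⟨ℓ, hℓ, hp⟩ := Nat.exists_infinite_primes (Ideal.absNorm v.asIdeal + 1)
    haveI : Fact ℓ.Prime := ⟨hp⟩
    have hvℓ := not_mem_of_lt v hp (by omega : Ideal.absNorm v.asIdeal < ℓ)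
    obtain ⟨σ, hσ⟩ := Pool.Agent.W401.Frob.exists_frob v
    have h1 := (hsys' ℓ).2 v hv hvℓ σ hσ
    obtain ⟨ι⟩ := emb ℓ
    have h2 := push_root ℓ ι hx
    rw [map_zero, ← h1] at h2
    have h3 : (((ρ ℓ).comp s) σ⁻¹).det ≠ 0 := by
      have h4 : ((ρ ℓ).comp s) σ⁻¹ * ((ρ ℓ).comp s) σ = 1 := by
        rw [← map_mul, inv_mul_cancel, map_one]
      have h5 := congrArg det h4
      rw [det_mul, det_one] at h5
      exact left_ne_zero_of_mul (by rw [h5]; exact one_ne_zero)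
    have h6 : aeval (algebraMap ℚ_[ℓ] (AlgebraicClosure ℚ_[ℓ]) 0) (((ρ ℓ).comp s) σ⁻¹).charpoly =
        algebraMap ℚ_[ℓ] (AlgebraicClosure ℚ_[ℓ]) ((((ρ ℓ).comp s) σ⁻¹).charpoly.eval 0) :=
      aeval_algebraMap_apply_eq_algebraMap_eval _ _
    rw [map_zero, h2] at h6
    have h7 := (map_eq_zero_iff _ (FaithfulSMul.algebraMap_injective _ _)).1 h6.symm
    rw [det_eq_sign_charpoly_coeff, coeff_zero_eq_eval_zero, h7, mul_zero] at h3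
    exact h3 rfl
  have hconj : ∀ v, v ∉ S → ∀ x : QQ, aeval x (P v) = 0 → c x = (q v : QQ) / x :=
    fun v hv x hx => conj_root hc (hpure v hv) hx (hnz v hv x hx)
  -- `c` and its products are self-dual
  have hsd : ∀ v, v ∉ S → ∀ t ∈ Fix (P v), c * t ∈ Sd (P v) (q v) := by
    intro v hv t ht T hT hTs x hx
    have h1 := hTs x hx
    rwa [AlgEquiv.mul_apply, ht x (hT x hx), hconj v hv x (hT x hx)] at h1
  -- `A` is normal
  have hAn : A.Normal := by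
    have h1 : ∀ g h : GK ℚ, g ∈ A → h * g * h⁻¹ ∈ A := by
      intro g h hg
      refine Subgroup.closure_induction (p := fun g _ => h * g * h⁻¹ ∈ A) ?_ ?_ ?_ ?_ hg
      · intro g hg
        obtain ⟨i, hi⟩ := Set.mem_iUnion.1 hg
        exact Subgroup.subset_closure (Set.mem_iUnion.2 ⟨i, fix_conj hi h⟩)
      · rw [mul_one, mul_inv_cancel]
        exact A.one_mem
      · intro a b _ _ ha hb
        have h2 := A.mul_mem ha hb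
        have e : h * a * h⁻¹ * (h * b * h⁻¹) = h * (a * b) * h⁻¹ := by group
        rwa [e] at h2
      · intro a _ ha
        have h2 := A.inv_mem ha
        have e : (h * a * h⁻¹)⁻¹ = h * a⁻¹ * h⁻¹ := by group
        rwa [e] at h2
    exact ⟨fun g hg h => h1 g h hg⟩
  -- `c` commutes with everything modulo `A`
  have hcomm : ∀ h : GK ℚ, c⁻¹ * (h * c * h⁻¹) ∈ A := by
    intro h
    apply Subgroup.subset_closure
    rw [Set.mem_iUnion]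
    refine ⟨0, fun x hx => ?_⟩
    have h1 := hconj _ (hu 0).1 (h⁻¹ x) (aeval_aut _ hx)
    have h2 := hconj _ (hu 0).1 x hx
    rw [AlgEquiv.mul_apply, AlgEquiv.mul_apply, AlgEquiv.mul_apply, h1, map_div₀, map_ratCast,
      ← AlgEquiv.mul_apply h, mul_inv_cancel, AlgEquiv.one_apply, ← h2, ← AlgEquiv.mul_apply,
      inv_mul_cancel, AlgEquiv.one_apply]
  refine hDENS2 _ (N.factorial * N.factorial) (fun ℓ hℓ => hℓ.1.out) fun M hM => ?_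
  obtain ⟨v, hv, hkey⟩ := key2 hLOC hLOGR hKRS hCHARA hMULTI hFROB hINT hN hS
    (fun ℓ _ => (ρ ℓ).comp s) hsys' u hu M hM
  obtain ⟨b, hb⟩ := hSUBI (P v) hv.2.1 hv.2.2.1
  have hdegv := (monic_of_sysA (fun ℓ _ => (ρ ℓ).comp s) hsys' hv.1).2
  have hdegu := (monic_of_sysA (fun ℓ _ => (ρ ℓ).comp s) hsys' (hu 0).1).2
  haveI := Lf_finite (P v)
  haveI := Lf_finite (P (u 0))
  haveI := Lf_normal (P v)
  haveI := Lf_normal (P (u 0))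
  refine ⟨Lf (P v) ⊔ Lf (P (u 0)), {g | c⁻¹ * g ∉ A} ∪ Sd (P v) (q v),
    IntermediateField.finiteDimensional_sup _ _, normal_sup' _ _ (Lf_normal _) (Lf_normal _),
    ?_, ?_, ?_, ?_,
    max b (Ideal.absNorm v.asIdeal), ?_⟩
  · refine (IntermediateField.finrank_sup_le _ _).trans ?_
    have h1 := Lf_finrank hv.2.2.1
    have h2 := Lf_finrank (hu 0).2.2.1
    rw [hdegv] at h1
    rw [hdegu] at h2
    exact Nat.mul_le_mul h1 h2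
  · rintro g (hg | hg) h
    · left
      intro h1
      apply hg
      have h2 := hAn.conj_mem _ (A.mul_mem (A.inv_mem (hcomm h)) h1) h⁻¹
      have e : h⁻¹ * ((c⁻¹ * (h * c * h⁻¹))⁻¹ * (c⁻¹ * (h * g * h⁻¹))) * h⁻¹⁻¹ = c⁻¹ * g := by group
      rwa [e] at h2
    · exact Or.inr (sd_conj hg h)
  · rintro g hg t ht
    have ht1 : t ∈ Fix (P v) := fun x hx => ht x
      ((le_sup_left : Lf (P v) ≤ Lf (P v) ⊔ Lf (P (u 0))) (mem_Lf hv.2.1.ne_zero hx))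
    have ht2 : t ∈ A := Subgroup.subset_closure (Set.mem_iUnion.2 ⟨0, fun x hx => ht x
      ((le_sup_right : Lf (P (u 0)) ≤ Lf (P v) ⊔ Lf (P (u 0)))
        (mem_Lf (hu 0).2.1.ne_zero hx))⟩)
    rcases hg with hg | hg
    · left
      intro h1
      apply hg
      have h2 := A.mul_mem h1 (A.inv_mem ht2)
      have e : c⁻¹ * (g * t) * t⁻¹ = c⁻¹ * g := by group
      rwa [e] at h2
    · exact Or.inr (sd_mul hg ht1)
  · intro g
    by_cases hg : c⁻¹ * g ∈ A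
    · obtain ⟨t, ht, hta⟩ := hkey _ hg
      refine ⟨(c⁻¹ * g)⁻¹ * t, fun x hx => ?_, Or.inr ?_⟩
      · rw [AlgEquiv.mul_apply, hta x hx, ← AlgEquiv.mul_apply, inv_mul_cancel, AlgEquiv.one_apply]
      · have e : g * ((c⁻¹ * g)⁻¹ * t) = c * t := by group
        rw [e]
        exact hsd v hv.1 t ht
    · exact ⟨1, fun x _ => rfl, Or.inl (by rwa [mul_one])⟩
  · rintro ℓ ⟨hp, hcA, hns⟩ hℓ σ hσ hσC
    rw [max_lt_iff] at hℓ
    rcases hσC with h | h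
    · exact h (hcA σ hσ)
    · exact hns (pot_of hSSV hv ℓ (not_mem_of_lt v hp.out hℓ.2) s (ρ ℓ) (J ℓ) (hsys ℓ) h
        (hb ℓ hℓ.1 hp σ hσ))

end

end Pool.Agent.Y142.SS
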